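import Pool.Agent.H180.PG.Stm

/-!
Project PG (helper180), lemma job PG-L1: functionals on `ℓ₁(Γ)`.
-/

set_option autoImplicit false

open Set Filter Topology

namespace Pool.Agent.Q217.PG

open Pool.Agent.H180.PG

variable {Γ : Type}

open Classical in
theorem single_eq (x : L1 Γ) (γ : Γ) : lp.single 1 γ (x γ) = (x γ) • (e γ : L1 Γ) := by
  unfold e
  rw [← lp.single_smul, smul_eq_mul, mul_one]

theorem hasSum_f (f : StrongDual ℝ (L1 Γ)) (x : L1 Γ) : HasSum (fun γ => x γ * co f γ) (f x) := by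
  classical
  have h1 := (lp.hasSum_single (p := 1) ENNReal.one_ne_top x).mapL f
  have h2 : (fun γ => f (lp.single 1 γ (x γ))) = fun γ => x γ * co f γ := by
    funext γ
    rw [single_eq, map_smul, smul_eq_mul]
    rfl
  rw [← h2]
  exact h1

theorem hasSum_abs (x : L1 Γ) : HasSum (fun γ => |x γ|) ‖x‖ := by
  have h1 := lp.hasSum_norm (p := 1) (by norm_num) x
  simpa using h1

theorem norm_e (γ : Γ) : ‖(e γ : L1 Γ)‖ = 1 := by
  classical
  unfold e
  rw [lp.norm_single (by norm_num)]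
  simp

theorem co_le (f : StrongDual ℝ (L1 Γ)) (γ : Γ) : |co f γ| ≤ ‖f‖ := by
  have h := f.le_opNorm (e γ)
  rwa [norm_e, mul_one] at h

theorem summable_mul (φ : Γ → ℝ) (C : ℝ) (hφ : ∀ γ, |φ γ| ≤ C) (x : L1 Γ) :
    Summable fun γ => x γ * φ γ := by
  refine Summable.of_norm_bounded ((hasSum_abs x).summable.mul_right C) fun γ => ?_
  rw [Real.norm_eq_abs, abs_mul]
  exact mul_le_mul_of_nonneg_left (hφ γ) (abs_nonneg _)

theorem exists_functional (φ : Γ → ℝ) (C : ℝ) (hC : 0 ≤ C) (hφ : ∀ γ, |φ γ| ≤ C) :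
    ∃ f : StrongDual ℝ (L1 Γ), ‖f‖ ≤ C ∧ ∀ γ, co f γ = φ γ := by
  classical
  let L : L1 Γ →ₗ[ℝ] ℝ :=
    { toFun := fun x => ∑' γ, x γ * φ γ
      map_add' := fun x y => by
        rw [← (summable_mul φ C hφ x).tsum_add (summable_mul φ C hφ y)]
        refine tsum_congr fun γ => ?_
        rw [lp.coeFn_add, Pi.add_apply]
        ring
      map_smul' := fun c x => by
        rw [RingHom.id_apply, smul_eq_mul, ← tsum_mul_left]
        refine tsum_congr fun γ => ?_
        rw [lp.coeFn_smul, Pi.smul_apply, smul_eq_mul]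
        ring }
  have hb : ∀ x, ‖L x‖ ≤ C * ‖x‖ := by
    intro x
    have h1 : HasSum (fun γ => |x γ| * C) (‖x‖ * C) := (hasSum_abs x).mul_right C
    have h2 : ‖∑' γ, x γ * φ γ‖ ≤ ‖x‖ * C := by
      refine tsum_of_norm_bounded h1 fun γ => ?_
      rw [Real.norm_eq_abs, abs_mul]
      exact mul_le_mul_of_nonneg_left (hφ γ) (abs_nonneg _)
    rw [mul_comm C]
    exact h2
  refine ⟨L.mkContinuous C hb, L.mkContinuous_norm_le hC hb, fun γ => ?_⟩
  change (∑' δ, (e γ : L1 Γ) δ * φ δ) = φ γ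
  rw [tsum_eq_single γ]
  · unfold e
    rw [lp.coeFn_single, Pi.single_eq_same, one_mul]
  · intro δ hδ
    unfold e
    rw [lp.coeFn_single, Pi.single_eq_of_ne hδ, zero_mul]

theorem l1 : S_L1 := by
  intro Γ
  refine ⟨?_, co_le, exists_functional, ?_⟩
  · intro f x h
    have h1 := hasSum_f f x
    have h2 : (fun γ => x γ * co f γ) = fun _ => 0 := by
      funext γ
      by_cases hx : x γ = 0
      · rw [hx, zero_mul]
      · rw [h γ hx, mul_zero]
    rw [h2] at h1
    exact h1.unique hasSum_zero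
  · intro x ε hε
    classical
    have h1 := hasSum_abs x
    have h1' : Tendsto (fun F : Finset Γ => ∑ γ ∈ F, |x γ|) atTop (𝓝 ‖x‖) := h1
    have h2 : ∀ᶠ F : Finset Γ in atTop, ‖x‖ - ε / 2 < ∑ γ ∈ F, |x γ| :=
      h1'.eventually_const_lt (by linarith)
    obtain ⟨F, hF⟩ := h2.exists
    refine ⟨F, fun f hf hs => ?_⟩
    have h3 : HasSum (fun γ => if γ ∈ F then 2 * |x γ| else 0) (∑ γ ∈ F, 2 * |x γ|) := by
      have h4 : HasSum (fun γ => if γ ∈ F then 2 * |x γ| else 0)
          (∑ γ ∈ F, if γ ∈ F then 2 * |x γ| else 0) :=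
        hasSum_sum_of_ne_finset_zero (fun γ hγ => if_neg hγ)
      have h5 : ∑ γ ∈ F, (if γ ∈ F then 2 * |x γ| else 0) = ∑ γ ∈ F, 2 * |x γ| :=
        Finset.sum_congr rfl fun γ hγ => if_pos hγ
      rwa [h5] at h4
    have h4 := h3.sub h1
    have h5 := hasSum_le (fun γ => ?_) h4 (hasSum_f f x)
    · rw [← Finset.mul_sum] at h5
      linarith
    · have h6 : |co f γ| ≤ 1 := (co_le f γ).trans hf
      by_cases hγ : γ ∈ F
      · have := hs γ hγ
        simp only [if_pos hγ]
        linarith [mul_comm (x γ) (co f γ)]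
      · simp only [if_neg hγ]
        have h7 : |x γ * co f γ| ≤ |x γ| := by
          rw [abs_mul]
          exact mul_le_of_le_one_right (abs_nonneg _) h6
        have h8 := neg_abs_le (x γ * co f γ)
        linarith

end Pool.Agent.Q217.PG
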